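import Pool.Agent.L7h22.FP.Fin

/-!
The second of the four polynomials alone represents all but `O(X exp (-c √(log X)))` of the integers
`q ≤ X`: for a prime `p` and a divisor `4 y - 1` of `p + 1`, `z = (p + 1) / (4 y - 1)`, every
`q ≡ - y z` modulo `p` is a value (Brun's sieve and the theorem of Bombieri and Vinogradov).
-/

set_option autoImplicit false

namespace Pool.Agent.Results.MP_ccd64a_nt.AlmostAllBySecond

/-- `q` is a value of `p_2(x, y, z) = x (4 y z - z - 1) - y z` for positive integers `x, y, z` with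
`y z ≤ B` -/
def ValueSecond (B : ℝ) (q : ℕ) : Prop := ∃ x y z : ℕ, 1 ≤ x ∧ 1 ≤ y ∧ 1 ≤ z ∧
  (y : ℝ) * z ≤ B ∧ (q : ℤ) = (x : ℤ) * (4 * y * z - z - 1) - y * z

/-- the set `S`: the values of the four polynomials at positive integers -/
def InS (q : ℕ) : Prop := ∃ x y z : ℕ, 1 ≤ x ∧ 1 ≤ y ∧ 1 ≤ z ∧
  ((q : ℤ) = (x : ℤ) * (4 * y * z - 1) - y * z ∨
    (q : ℤ) = (x : ℤ) * (4 * y * z - z - 1) - y * z ∨
    (q : ℤ) = (x : ℤ) * (8 * y - 3) - 6 * y + 2 ∨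
    (q : ℤ) = (x : ℤ) ^ 2 - x)

/-- All but `C X exp (-c √(log X))` of the integers `q ≤ X` are values of the second polynomial with
`y z ≤ exp √(log X)`; so all but `C X exp (-c √(log X))` of them lie in `S`. -/
theorem result : ∃ c : ℝ, 0 < c ∧ ∃ C : ℝ, ∀ X : ℕ, 1 ≤ X →
    (Nat.card {q : ℕ // q ≤ X ∧ ¬ ValueSecond (Real.exp (Real.sqrt (Real.log X))) q} : ℝ) ≤
      C * X * Real.exp (-(c * Real.sqrt (Real.log X))) ∧
    (Nat.card {q : ℕ // 1 ≤ q ∧ q ≤ X ∧ ¬ InS q} : ℝ) ≤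
      C * X * Real.exp (-(c * Real.sqrt (Real.log X))) := by
  obtain ⟨c, hc, C, hC⟩ := Pool.Agent.L7h22.FP.main
  refine ⟨c, hc, C, fun X hX => ⟨hC X hX, le_trans ?_ (hC X hX)⟩⟩
  have h1 : {q : ℕ | 1 ≤ q ∧ q ≤ X ∧ ¬ InS q} ⊆
      {q : ℕ | q ≤ X ∧ ¬ Pool.Agent.L7h22.FP.P2 (Real.exp (Real.sqrt (Real.log X))) q} := by
    rintro q ⟨-, h2, h3⟩
    refine ⟨h2, fun h4 => h3 ?_⟩
    obtain ⟨x, y, z, hx, hy, hz, -, h5⟩ := h4
    exact ⟨x, y, z, hx, hy, hz, Or.inr (Or.inl h5)⟩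
  have hfin : {q : ℕ | q ≤ X ∧
      ¬ Pool.Agent.L7h22.FP.P2 (Real.exp (Real.sqrt (Real.log X))) q}.Finite :=
    (Set.finite_le_nat X).subset fun q hq => hq.1
  have h2 := Set.ncard_le_ncard h1 hfin
  exact_mod_cast h2

end Pool.Agent.Results.MP_ccd64a_nt.AlmostAllBySecond
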